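import Pool.Agent.Helper66.SG.Goals
import Pool.Agent.Helper15.Ru.DetH
import Pool.Agent.Helper96.Ru.HeightLocal

/-! # Packet SG2-RHG (MP_a41896_nt): the height of the resultant with true degrees -/

set_option autoImplicit false

open MvPolynomial

namespace Pool.Agent.Helper62.SG2

open Pool.Agent.Helper92.Ru Pool.Agent.Helper42.SG Pool.Agent.Helper76.SGA

/-- the sum norm from the degrees and the coefficients. -/
theorem N1_le_of {k : Type} [Field k] {m : ℕ} (w : AbsoluteValue k ℝ) (R : ℕ)
    (p : MvPolynomial (Fin m) k) (hR : ∀ h, p.degreeOf h ≤ R) (b : ℝ) (hb : 0 ≤ b)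
    (hp : ∀ e, w (coeff e p) ≤ b) : Pool.Agent.Helper15.Ru.N1 w p ≤ ((R : ℝ) + 1) ^ m * b := by
  classical
  set S : Finset (Fin m →₀ ℕ) := (Fintype.piFinset (fun _ : Fin m => Finset.range (R + 1))).image
    (fun f => Finsupp.equivFunOnFinite.symm f) with hS
  have hsub : p.support ⊆ S := by
    intro a ha
    rw [hS, Finset.mem_image]
    refine ⟨fun i => a i, ?_, ?_⟩
    · rw [Fintype.mem_piFinset]
      intro i
      rw [Finset.mem_range]
      have := (monomial_le_degreeOf i ha).trans (hR i)
      omega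
    · ext i; simp
  have hcard : S.card ≤ (R + 1) ^ m := by
    refine Finset.card_image_le.trans ?_
    rw [Fintype.card_piFinset]
    simp
  rw [Pool.Agent.Helper15.Ru.N1_eq w _ S hsub]
  refine (Finset.sum_le_sum (fun a _ => hp a)).trans ?_
  rw [Finset.sum_const, nsmul_eq_mul]
  refine mul_le_mul_of_nonneg_right ?_ hb
  exact_mod_cast hcard

/-- the sum norm of a determinant, column by column. -/
theorem N1_det_col {k : Type} [Field k] {σ : Type} (w : AbsoluteValue k ℝ) (s : ℕ)
    (M : Matrix (Fin s) (Fin s) (MvPolynomial σ k)) (b : Fin s → ℝ)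
    (hM : ∀ i j, Pool.Agent.Helper15.Ru.N1 w (M i j) ≤ b j) :
    Pool.Agent.Helper15.Ru.N1 w M.det ≤ s.factorial * ∏ j, b j := by
  classical
  rw [Matrix.det_apply]
  refine (Pool.Agent.Helper15.Ru.N1_sum w _ _).trans ?_
  have : ∀ τ ∈ (Finset.univ : Finset (Equiv.Perm (Fin s))),
      Pool.Agent.Helper15.Ru.N1 w (Equiv.Perm.sign τ • ∏ i, M (τ i) i) ≤ ∏ j, b j := by
    intro τ _
    rw [Pool.Agent.Helper15.Ru.N1_units]
    refine (Pool.Agent.Helper15.Ru.N1_prod w _ _).trans ?_
    exact Finset.prod_le_prod (fun _ _ => Pool.Agent.Helper15.Ru.N1_nonneg w _) fun i _ => hM _ _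
  refine (Finset.sum_le_sum this).trans ?_
  rw [Finset.sum_const, Finset.card_univ, Fintype.card_perm, Fintype.card_fin, nsmul_eq_mul]

/-- the maximum norm of a product, factor by factor. -/
theorem Bd_prod_col {k : Type} [Field k] {σ : Type} {w : AbsoluteValue k ℝ}
    (hw : IsNonarchimedean w) {ι : Type} (s : Finset ι) (f : ι → MvPolynomial σ k)
    (b : ι → ℝ) (hb : ∀ i, 0 ≤ b i) (h : ∀ i ∈ s, Pool.Agent.Helper15.Ru.Bd w (f i) (b i)) :
    Pool.Agent.Helper15.Ru.Bd w (∏ i ∈ s, f i) (∏ i ∈ s, b i) := by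
  classical
  induction s using Finset.induction with
  | empty =>
    intro e
    rw [Finset.prod_empty, Finset.prod_empty, coeff_one]
    split_ifs <;> simp
  | insert a s ha ih =>
    rw [Finset.prod_insert ha, Finset.prod_insert ha]
    exact Pool.Agent.Helper15.Ru.Bd_mul hw _ _ _ _ (hb a) (Finset.prod_nonneg fun i _ => hb i)
      (h a (Finset.mem_insert_self _ _)) (ih fun i hi => h i (Finset.mem_insert_of_mem hi))

/-- the maximum norm of a determinant, column by column. -/
theorem Bd_det_col {k : Type} [Field k] {σ : Type} {w : AbsoluteValue k ℝ}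
    (hw : IsNonarchimedean w) (s : ℕ) (M : Matrix (Fin s) (Fin s) (MvPolynomial σ k))
    (b : Fin s → ℝ) (hb : ∀ i, 0 ≤ b i)
    (hM : ∀ i j, Pool.Agent.Helper15.Ru.Bd w (M i j) (b j)) :
    Pool.Agent.Helper15.Ru.Bd w M.det (∏ j, b j) := by
  classical
  intro e
  rw [Matrix.det_apply, coeff_sum]
  refine Pool.Agent.Helper15.Ru.sum_le_of hw _ _ _ (Finset.prod_nonneg fun i _ => hb i)
    fun τ _ => ?_
  have h := Bd_prod_col hw Finset.univ (fun i => M (τ i) i) b hb (fun i _ => hM _ _) e
  rcases Int.units_eq_one_or (Equiv.Perm.sign τ) with h1 | h1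
  · rw [h1, one_smul]; exact h
  · rw [h1, Units.neg_smul, one_smul, coeff_neg, w.map_neg]; exact h

/-- product of the column bounds of the Sylvester matrix. -/
theorem prod_cols (N M : ℕ) (a b : ℝ) :
    (∏ j : Fin (N + M), (Fin.addCases (fun _ => a) (fun _ => b) j : ℝ)) = a ^ N * b ^ M := by
  rw [Fin.prod_univ_add]
  simp

/-- the local comparison `F ^ M G ^ N a ^ (S - M) b ^ (S - N) ≤ (F G) ^ S`. -/
theorem pow_cmp (F G a b : ℝ) (N M S : ℕ) (ha : 0 ≤ a) (hb : 0 ≤ b) (haF : a ≤ F) (hbG : b ≤ G)
    (hM : M ≤ S) (hN : N ≤ S) :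
    a ^ (S - M) * b ^ (S - N) * (G ^ N * F ^ M) ≤ (F * G) ^ S := by
  have hF : 0 ≤ F := ha.trans haF
  have hG : 0 ≤ G := hb.trans hbG
  have h1 : a ^ (S - M) ≤ F ^ (S - M) := pow_le_pow_left₀ ha haF _
  have h2 : b ^ (S - N) ≤ G ^ (S - N) := pow_le_pow_left₀ hb hbG _
  calc a ^ (S - M) * b ^ (S - N) * (G ^ N * F ^ M)
      ≤ F ^ (S - M) * G ^ (S - N) * (G ^ N * F ^ M) := by
        refine mul_le_mul_of_nonneg_right ?_ (by positivity)
        exact mul_le_mul h1 h2 (by positivity) (by positivity)
    _ = (F ^ (S - M) * F ^ M) * (G ^ (S - N) * G ^ N) := by ring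
    _ = (F * G) ^ S := by
        rw [← pow_add, ← pow_add, Nat.sub_add_cancel hM, Nat.sub_add_cancel hN, mul_pow]

theorem t_rhg (h : SEP) : Pool.Agent.Helper66.SG.RHG := by
  intro K _ _ m D d
  classical
  obtain ⟨-, -, -, hco, hnat, hdeg, -, -, -⟩ := h K m
  set n : ℝ := (Module.finrank ℚ K : ℝ) with hn
  have hn0 : 0 ≤ n := Nat.cast_nonneg _
  set S : ℕ := D + d with hS
  have hfac : (1 : ℝ) ≤ ((S).factorial : ℝ) := by
    exact_mod_cast Nat.one_le_iff_ne_zero.2 (Nat.factorial_ne_zero _)
  have hlf : 0 ≤ Real.log ((S).factorial : ℝ) := Real.log_nonneg hfac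
  have hmS : (0 : ℝ) ≤ (m : ℝ) * S := by positivity
  have hS0 : (0 : ℝ) ≤ (S : ℝ) := Nat.cast_nonneg _
  refine ⟨n * (Real.log ((S).factorial : ℝ) + m * S) + S + 1, ?_, ?_⟩
  · have : 0 ≤ n * (Real.log ((S).factorial : ℝ) + m * S) := by positivity
    linarith
  intro f g R hR hf hg hfD hgd hfR hgR
  set N : ℕ := (sepL K m f).natDegree with hN
  set M : ℕ := (sepL K m g).natDegree with hM
  have hND : N ≤ D := by rw [hN, hnat]; exact hfD
  have hMd : M ≤ d := by rw [hM, hnat]; exact hgd
  have hR1 : (1 : ℝ) ≤ R := by exact_mod_cast hR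
  set E := Polynomial.resultant (sepL K m f) (sepL K m g) with hE
  obtain ⟨e1, he1⟩ := ne_zero_iff.mp hf
  obtain ⟨e2, he2⟩ := ne_zero_iff.mp hg
  have hyf : (fun e : f.support => coeff e.1 f) ≠ 0 := by
    intro h
    exact he1 (congrFun h ⟨e1, mem_support_iff.mpr he1⟩)
  have hyg : (fun e : g.support => coeff e.1 g) ≠ 0 := by
    intro h
    exact he2 (congrFun h ⟨e2, mem_support_iff.mpr he2⟩)
  set a : K := coeff e1 f with ha
  set b : K := coeff e2 g with hb
  have hsup : ∀ (p : MvPolynomial (Fin (m + 1)) K) (w : AbsoluteValue K ℝ)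
      (e : Fin (m + 1) →₀ ℕ), w (coeff e p) ≤ ⨆ j : p.support, w (coeff j.1 p) := by
    intro p w e
    by_cases he : e ∈ p.support
    · exact Finite.le_ciSup_of_le (⟨e, he⟩ : p.support) le_rfl
    · rw [notMem_support_iff.mp he, map_zero]
      exact Real.iSup_nonneg fun j => w.nonneg _
  set y : f.support × g.support → K := fun i => coeff i.1.1 f * coeff i.2.1 g with hy
  have hyH : Height.mulHeight y = PH f * PH g := Height.mulHeight_fun_mul_eq hyf hyg
  have hy0 : y ≠ 0 := by
    intro h0
    have := congrFun h0 (⟨e1, mem_support_iff.mpr he1⟩, ⟨e2, mem_support_iff.mpr he2⟩)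
    exact (mul_ne_zero he1 he2) this
  have hysup : ∀ w : AbsoluteValue K ℝ, (⨆ j : f.support, w (coeff j.1 f)) *
      (⨆ j : g.support, w (coeff j.1 g)) ≤ ⨆ j, w (y j) := by
    intro w
    have : Nonempty f.support := ⟨⟨e1, mem_support_iff.mpr he1⟩⟩
    have : Nonempty g.support := ⟨⟨e2, mem_support_iff.mpr he2⟩⟩
    obtain ⟨i, hi⟩ := exists_eq_ciSup_of_finite (f := fun j : f.support => w (coeff j.1 f))
    obtain ⟨j, hj⟩ := exists_eq_ciSup_of_finite (f := fun j : g.support => w (coeff j.1 g))
    rw [← hi, ← hj]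
    have h1 : w (coeff i.1 f) * w (coeff j.1 g) = w (y (i, j)) := by
      rw [hy, map_mul]
    show w (coeff i.1 f) * w (coeff j.1 g) ≤ _
    rw [h1]
    exact Finite.le_ciSup_of_le (i, j) le_rfl
  set T : ℝ := ((R : ℝ) + 1) ^ m with hT
  have hT1 : 1 ≤ T := one_le_pow₀ (by linarith)
  have hT0 : 0 ≤ T := by linarith
  set c : ℝ := ((S).factorial : ℝ) * T ^ S with hc
  have hc1 : 1 ≤ c := one_le_mul_of_one_le_of_one_le hfac (one_le_pow₀ hT1)
  -- entries of the Sylvester matrix
  have hleft : ∀ (i : Fin (N + M)) (j : Fin N),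
      (Polynomial.sylvester (sepL K m f) (sepL K m g) N M) i (Fin.castAdd M j) = 0 ∨
      (∃ a, (Polynomial.sylvester (sepL K m f) (sepL K m g) N M) i (Fin.castAdd M j)
        = (sepL K m g).coeff a) := by
    intro i j
    simp only [Polynomial.sylvester, Matrix.of_apply, Fin.addCases_left]
    split_ifs
    · exact Or.inr ⟨_, rfl⟩
    · exact Or.inl rfl
  have hright : ∀ (i : Fin (N + M)) (j : Fin M),
      (Polynomial.sylvester (sepL K m f) (sepL K m g) N M) i (Fin.natAdd N j) = 0 ∨
      (∃ a, (Polynomial.sylvester (sepL K m f) (sepL K m g) N M) i (Fin.natAdd N j)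
        = (sepL K m f).coeff a) := by
    intro i j
    simp only [Polynomial.sylvester, Matrix.of_apply, Fin.addCases_right]
    split_ifs
    · exact Or.inr ⟨_, rfl⟩
    · exact Or.inl rfl
  set q : K := a ^ (S - M) * b ^ (S - N) with hq
  have hq0 : q ≠ 0 := mul_ne_zero (pow_ne_zero _ he1) (pow_ne_zero _ he2)
  have key : Height.mulHeight (fun e : E.support => q * coeff e.1 E) ≤
      c ^ (Module.finrank ℚ K) * Height.mulHeight y ^ S := by
    refine Pool.Agent.Helper96.Ru.heightLocal K E.support (f.support × g.support)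
      (fun e => q * coeff e.1 E) y S c hy0 hc1 ?_ ?_
    · intro v e
      set F : ℝ := ⨆ j : f.support, v.1 (coeff j.1 f) with hF
      set G : ℝ := ⨆ j : g.support, v.1 (coeff j.1 g) with hG
      have hF0 : 0 ≤ F := Real.iSup_nonneg fun j => v.1.nonneg _
      have hG0 : 0 ≤ G := Real.iSup_nonneg fun j => v.1.nonneg _
      have hcol : ∀ i j, Pool.Agent.Helper15.Ru.N1 v.1
          ((Polynomial.sylvester (sepL K m f) (sepL K m g) N M) i j) ≤
            (Fin.addCases (fun _ => T * G) (fun _ => T * F) j : ℝ) := by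
        intro i j
        induction j using Fin.addCases with
        | left j =>
          rw [Fin.addCases_left]
          rcases hleft i j with h0 | ⟨a', ha'⟩
          · rw [h0, Pool.Agent.Helper15.Ru.N1_zero]
            positivity
          · rw [ha']
            refine N1_le_of v.1 R _ (fun h => (hdeg g a' h).trans (hgR _)) _ hG0 ?_
            intro e
            rw [hco]
            exact hsup g v.1 _
        | right j =>
          rw [Fin.addCases_right]
          rcases hright i j with h0 | ⟨a', ha'⟩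
          · rw [h0, Pool.Agent.Helper15.Ru.N1_zero]
            positivity
          · rw [ha']
            refine N1_le_of v.1 R _ (fun h => (hdeg f a' h).trans (hfR _)) _ hF0 ?_
            intro e
            rw [hco]
            exact hsup f v.1 _
      have h2 : v.1 (coeff e.1 E) ≤ (N + M).factorial * ((T * G) ^ N * (T * F) ^ M) := by
        refine (Pool.Agent.Helper15.Ru.coeff_le_N1 v.1 E e.1).trans ?_
        have h3 := N1_det_col v.1 (N + M) _ _ hcol
        rw [prod_cols] at h3
        exact h3
      have h4 : v.1 q * ((N + M).factorial * ((T * G) ^ N * (T * F) ^ M)) ≤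
          c * (F * G) ^ S := by
        have h5 := pow_cmp F G (v.1 a) (v.1 b) N M S (v.1.nonneg _) (v.1.nonneg _)
          (hsup f v.1 e1) (hsup g v.1 e2) (by omega) (by omega)
        have h6 : ((N + M).factorial : ℝ) * T ^ (N + M) ≤ c := by
          rw [hc]
          refine mul_le_mul ?_ (pow_le_pow_right₀ hT1 (by omega)) (by positivity) (by positivity)
          exact_mod_cast Nat.factorial_le (by omega)
        have h7 : v.1 q = v.1 a ^ (S - M) * v.1 b ^ (S - N) := by
          rw [hq, map_mul, map_pow, map_pow]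
        calc v.1 q * ((N + M).factorial * ((T * G) ^ N * (T * F) ^ M))
            = ((N + M).factorial * T ^ (N + M)) *
                (v.1 a ^ (S - M) * v.1 b ^ (S - N) * (G ^ N * F ^ M)) := by
              rw [h7, pow_add, mul_pow, mul_pow]; ring
          _ ≤ c * (F * G) ^ S := by
              refine mul_le_mul h6 h5 ?_ (by positivity)
              have := v.1.nonneg a
              have := v.1.nonneg b
              positivity
      calc v.1 (q * coeff e.1 E) = v.1 q * v.1 (coeff e.1 E) := map_mul _ _ _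
        _ ≤ v.1 q * ((N + M).factorial * ((T * G) ^ N * (T * F) ^ M)) :=
            mul_le_mul_of_nonneg_left h2 (v.1.nonneg _)
        _ ≤ c * (F * G) ^ S := h4
        _ ≤ c * (⨆ j, v.1 (y j)) ^ S := by
            refine mul_le_mul_of_nonneg_left ?_ (by linarith)
            exact pow_le_pow_left₀ (by positivity) (hysup v.1) _
    · intro v e
      set F : ℝ := ⨆ j : f.support, v.1 (coeff j.1 f) with hF
      set G : ℝ := ⨆ j : g.support, v.1 (coeff j.1 g) with hG
      have hF0 : 0 ≤ F := Real.iSup_nonneg fun j => v.1.nonneg _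
      have hG0 : 0 ≤ G := Real.iSup_nonneg fun j => v.1.nonneg _
      have hna : IsNonarchimedean v.1 := fun x y => v.add_le x y
      have hcol : ∀ i j, Pool.Agent.Helper15.Ru.Bd v.1
          ((Polynomial.sylvester (sepL K m f) (sepL K m g) N M) i j)
            (Fin.addCases (fun _ => G) (fun _ => F) j : ℝ) := by
        intro i j
        induction j using Fin.addCases with
        | left j =>
          rw [Fin.addCases_left]
          rcases hleft i j with h0 | ⟨a', ha'⟩
          · intro e
            rw [h0, coeff_zero, map_zero]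
            exact hG0
          · intro e
            rw [ha', hco]
            exact hsup g v.1 _
        | right j =>
          rw [Fin.addCases_right]
          rcases hright i j with h0 | ⟨a', ha'⟩
          · intro e
            rw [h0, coeff_zero, map_zero]
            exact hF0
          · intro e
            rw [ha', hco]
            exact hsup f v.1 _
      have hcol0 : ∀ j : Fin (N + M), 0 ≤ (Fin.addCases (fun _ => G) (fun _ => F) j : ℝ) := by
        intro j
        induction j using Fin.addCases with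
        | left j => rw [Fin.addCases_left]; exact hG0
        | right j => rw [Fin.addCases_right]; exact hF0
      have h2 : v.1 (coeff e.1 E) ≤ G ^ N * F ^ M := by
        have h3 := Bd_det_col hna (N + M) _ _ hcol0 hcol e.1
        rw [prod_cols] at h3
        exact h3
      have h5 := pow_cmp F G (v.1 a) (v.1 b) N M S (v.1.nonneg _) (v.1.nonneg _)
          (hsup f v.1 e1) (hsup g v.1 e2) (by omega) (by omega)
      have h7 : v.1 q = v.1 a ^ (S - M) * v.1 b ^ (S - N) := by
        rw [hq, map_mul, map_pow, map_pow]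
      calc v.1 (q * coeff e.1 E) = v.1 q * v.1 (coeff e.1 E) := map_mul _ _ _
        _ ≤ v.1 q * (G ^ N * F ^ M) := mul_le_mul_of_nonneg_left h2 (v.1.nonneg _)
        _ ≤ (F * G) ^ S := by rw [h7]; exact h5
        _ ≤ (⨆ j, v.1 (y j)) ^ S := pow_le_pow_left₀ (by positivity) (hysup v.1) _
  have hEH : Height.mulHeight (fun e : E.support => q * coeff e.1 E) = PH E :=
    Height.mulHeight_smul_eq_mulHeight (fun e : E.support => coeff e.1 E) hq0
  rw [hEH, hyH] at key
  have hEpos : 0 < PH E := Height.mulHeight_pos _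
  have hfpos : 0 < PH f := Height.mulHeight_pos _
  have hgpos : 0 < PH g := Height.mulHeight_pos _
  have hf1 : 0 ≤ Real.log (PH f) := Real.log_nonneg (Height.one_le_mulHeight _)
  have hg1 : 0 ≤ Real.log (PH g) := Real.log_nonneg (Height.one_le_mulHeight _)
  have hcpos : 0 < c := by linarith
  have hlog : Real.log (PH E) ≤ n * Real.log c
      + (S : ℝ) * (Real.log (PH f) + Real.log (PH g)) := by
    refine (Real.log_le_log hEpos key).trans (le_of_eq ?_)
    rw [Real.log_mul (by positivity) (by positivity), Real.log_pow, Real.log_pow,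
      Real.log_mul hfpos.ne' hgpos.ne']
  have hlc : Real.log c ≤ (Real.log ((S).factorial : ℝ) + m * S) * R := by
    have e4 : Real.log T ≤ m * R := by
      rw [hT, Real.log_pow]
      refine mul_le_mul_of_nonneg_left ?_ (Nat.cast_nonneg m)
      have := Real.log_le_sub_one_of_pos (x := (R : ℝ) + 1) (by positivity)
      linarith
    rw [hc, Real.log_mul (by positivity) (by positivity), Real.log_pow]
    have e5 : (S : ℝ) * Real.log T ≤ S * (m * R) := mul_le_mul_of_nonneg_left e4 hS0
    nlinarith
  have hfin : n * Real.log c ≤ n * ((Real.log ((S).factorial : ℝ) + m * S) * R) :=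
    mul_le_mul_of_nonneg_left hlc hn0
  have hA : 0 ≤ n * (Real.log ((S).factorial : ℝ) + m * S) := by positivity
  nlinarith [mul_nonneg hA hf1, mul_nonneg hA hg1]

end Pool.Agent.Helper62.SG2
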